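import Mathlib

set_option autoImplicit false

namespace Pool.Agent.H.MP_066b7c_al

open Matrix Module

section rank
variable {K : Type*} [Field K] {α β γ δ : Type*}

theorem card_le_rank_of_li [Fintype β] {κ : Type*} [Fintype κ] (X : Matrix α β K) (f : κ → α)
    (h : LinearIndependent K (fun k => X (f k))) : Fintype.card κ ≤ X.rank := by
  have h1 : (X.submatrix f id).rank = Fintype.card κ := LinearIndependent.rank_matrix h
  rw [← h1]
  exact rank_submatrix_le X f id

theorem exists_li_rows [Fintype α] [Fintype β] (X : Matrix α β K) (n : ℕ) (h : n ≤ X.rank) :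
    ∃ f : Fin n → α, LinearIndependent K (fun k => X (f k)) := by
  classical
  obtain ⟨κ, a, ha, hsp, hli⟩ := exists_linearIndependent' K X.row
  have : Finite κ := Finite.of_injective a ha
  have := Fintype.ofFinite κ
  have hc : Fintype.card κ = X.rank := by
    rw [X.rank_eq_finrank_span_row, ← hsp, linearIndependent_iff_card_eq_finrank_span.mp hli,
      Set.finrank]
  obtain ⟨e⟩ : Nonempty (Fin n ↪ κ) := by
    apply Function.Embedding.nonempty_of_card_le
    simpa [hc] using h
  exact ⟨fun k => a (e k), hli.comp e e.injective⟩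

theorem le_rank_of_det [Fintype β] (X : Matrix α β K) (n : ℕ) (f : Fin n → α) (g : Fin n → β)
    (h : (X.submatrix f g).det ≠ 0) : n ≤ X.rank := by
  have h1 := rank_of_det_ne_zero h
  have h2 := rank_submatrix_le X f g
  simpa [h1] using h2

theorem exists_det_of_le_rank [Fintype α] [Fintype β] (X : Matrix α β K) (n : ℕ)
    (h : n ≤ X.rank) : ∃ (f : Fin n → α) (g : Fin n → β), (X.submatrix f g).det ≠ 0 := by
  obtain ⟨f, hf⟩ := exists_li_rows X n h
  have h1 : (X.submatrix f id).rank = n := by
    have := LinearIndependent.rank_matrix (M := X.submatrix f id) hf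
    simpa using this
  obtain ⟨g, hg⟩ := exists_li_rows (X.submatrix f id)ᵀ n (by rw [rank_transpose, h1])
  refine ⟨f, g, ?_⟩
  have h2 : IsUnit ((X.submatrix f g)ᵀ) := by
    rw [← linearIndependent_rows_iff_isUnit]
    exact hg
  rw [isUnit_iff_isUnit_det, det_transpose] at h2
  exact h2.ne_zero

theorem exists_factor [Fintype α] [Fintype β] (X : Matrix α β K) :
    ∃ (U : Matrix α (Fin X.rank) K) (W : Matrix (Fin X.rank) β K), X = U * W := by
  classical
  let S := Submodule.span K (Set.range X.row)
  have hS : finrank K S = X.rank := (X.rank_eq_finrank_span_row).symm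
  let b : Basis (Fin X.rank) K S := Module.finBasisOfFinrankEq K S hS
  refine ⟨fun i s => b.repr ⟨X i, Submodule.subset_span ⟨i, rfl⟩⟩ s, fun s => (b s : β → K), ?_⟩
  ext i j
  have := congrArg (fun v : S => (v : β → K) j)
    (b.sum_repr ⟨X i, Submodule.subset_span ⟨i, rfl⟩⟩)
  simp only [Submodule.coe_sum, Submodule.coe_smul, Finset.sum_apply, Pi.smul_apply,
    smul_eq_mul] at this
  rw [Matrix.mul_apply, this]

theorem rank_kron_le [Fintype α] [Fintype β] [Fintype γ] [Fintype δ] (A : Matrix α β K)
    (B : Matrix γ δ K) :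
    (kroneckerMap (fun u v : K => u * v) A B).rank ≤ A.rank * B.rank := by
  obtain ⟨U, W, h⟩ := exists_factor A
  obtain ⟨U', W', h'⟩ := exists_factor B
  have : kroneckerMap (fun u v : K => u * v) A B =
      kroneckerMap (fun u v : K => u * v) U U' * kroneckerMap (fun u v : K => u * v) W W' := by
    rw [← mul_kronecker_mul, ← h, ← h']
  rw [this]
  refine (rank_mul_le_left _ _).trans ((rank_le_card_width _).trans ?_)
  simp

/-- block anti-triangular rank bound -/
theorem block_rank {a b : ℕ} [Fintype γ] [Fintype δ] (X : Matrix (Fin a × γ) (Fin b × δ) K)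
    (D ρ : ℕ) (hX : ∀ (i : Fin a) (j : Fin b) x y, D < i.val + j.val → X (i, x) (j, y) = 0)
    (I : Finset (Fin a))
    (hI : ∀ i ∈ I, ∃ j : Fin b, i.val + j.val = D ∧
      ρ ≤ Matrix.rank (Matrix.of fun x y => X (i, x) (j, y))) :
    I.card * ρ ≤ X.rank := by
  classical
  choose J hJ hr using hI
  have h2 : ∀ i (hi : i ∈ I), ∃ f : Fin ρ → γ,
      LinearIndependent K (fun k => fun y => X (i, f k) (J i hi, y)) := fun i hi =>
    exists_li_rows (Matrix.of fun x y => X (i, x) (J i hi, y)) ρ (hr i hi)
  choose F hF using h2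
  have key := card_le_rank_of_li (κ := I × Fin ρ) X (fun p => (p.1.1, F p.1.1 p.1.2 p.2)) ?_
  · simpa using key
  rw [Fintype.linearIndependent_iff]
  intro c hc
  have main : ∀ n : ℕ, ∀ (i : I), i.1.val = n → ∀ s, c (i, s) = 0 := by
    intro n
    induction n using Nat.strong_induction_on with
    | _ n ih =>
      intro i hi
      have h3 := Fintype.linearIndependent_iff.mp (hF i.1 i.2) (fun s => c (i, s))
      apply h3
      ext y
      have h4 := congrFun hc (J i.1 i.2, y)
      simp only [Finset.sum_apply, Pi.smul_apply, smul_eq_mul, Pi.zero_apply] at h4 ⊢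
      rw [Fintype.sum_prod_type, Finset.sum_eq_single i] at h4
      · exact h4
      · intro i' _ hne
        apply Finset.sum_eq_zero
        intro s _
        rcases lt_trichotomy i'.1.val i.1.val with hlt | heq | hgt
        · rw [ih _ (hi ▸ hlt) i' rfl s, zero_mul]
        · exact absurd (Subtype.ext (Fin.ext heq)) hne
        · rw [hX _ _ _ _ (by have := hJ i.1 i.2; dsimp only; omega), mul_zero]
      · simp
  intro p
  exact main _ p.1 rfl p.2

end rank

/-- the special matrices -/
noncomputable def E (a b ρ : ℕ) (e : ℕ × ℕ) : Matrix (Fin a) (Fin b) ℂ := fun i j =>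
  if i.val + j.val + 1 = e.1 + e.2 + ρ then (i.val : ℂ) ^ (e.1 - (e.1 + e.2 + ρ - b)) else 0

theorem lemmaT {a b ρ ρ' : ℕ} (hρ : 1 ≤ ρ) {ι γ δ : Type*} [Fintype ι] [Fintype γ] [Fintype δ]
    (e : ι → ℕ × ℕ) (he : Function.Injective e) (h1 : ∀ t, (e t).1 + ρ ≤ a)
    (h2 : ∀ t, (e t).2 + ρ ≤ b) (S : Submodule ℂ (Matrix γ δ ℂ))
    (hS : ∀ x ∈ S, x ≠ 0 → ρ' ≤ x.rank) (c : ι → Matrix γ δ ℂ) (hc : ∀ t, c t ∈ S)
    (hc0 : c ≠ 0) :
    ρ * ρ' ≤ (∑ t, kroneckerMap (fun u v : ℂ => u * v) (E a b ρ (e t)) (c t)).rank := by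
  classical
  obtain ⟨t0, ht0, hmax⟩ := Finset.exists_max_image (Finset.univ.filter fun t => c t ≠ 0)
    (fun t => (e t).1 + (e t).2) (by
      by_contra hcon
      apply hc0
      ext1 t
      by_contra h
      exact hcon ⟨t, by simpa using h⟩)
  simp only [Finset.mem_filter, Finset.mem_univ, true_and] at ht0 hmax
  obtain ⟨x0, y0, hxy⟩ : ∃ x y, c t0 x y ≠ 0 := by
    by_contra hcon
    push Not at hcon
    exact ht0 (Matrix.ext hcon)
  set d := (e t0).1 + (e t0).2 with hd
  set lo := d + ρ - b with hlo
  set hi := min (a - ρ) d with hhi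
  let T := Finset.univ.filter fun t => (e t).1 + (e t).2 = d
  let q : Polynomial ℂ := ∑ t ∈ T, Polynomial.monomial ((e t).1 - lo) (c t x0 y0)
  have hq0 : q ≠ 0 := by
    intro h
    have := congrArg (fun p => Polynomial.coeff p ((e t0).1 - lo)) h
    simp only [q, Polynomial.finsetSum_coeff, Polynomial.coeff_monomial,
      Polynomial.coeff_zero] at this
    rw [Finset.sum_eq_single t0] at this
    · simp [hxy] at this
    · intro t ht hne
      rw [if_neg]
      intro h5
      apply hne
      apply he
      have ht' : (e t).1 + (e t).2 = d := by simpa [T] using ht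
      have := h2 t
      have := h2 t0
      exact Prod.ext (by omega) (by omega)
    · intro h; exact absurd (by simp [T, hd]) h
  have hqd : q.natDegree ≤ hi - lo := by
    apply Polynomial.natDegree_sum_le_of_forall_le
    intro t ht
    have ht' : (e t).1 + (e t).2 = d := by simpa [T] using ht
    refine (Polynomial.natDegree_monomial_le _).trans ?_
    have := h1 t
    omega
  have hlohi : lo ≤ hi := by have := h1 t0; have := h2 t0; omega
  -- positions
  let Pos : Finset (Fin a) := Finset.univ.filter fun i => lo ≤ i.val ∧ i.val < hi + ρ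
  have hPos : Pos.card = hi + ρ - lo := by
    rw [← Nat.card_Ico lo (hi + ρ)]
    apply Finset.card_bij (fun i _ => i.val)
    · intro i hi'; simpa [Pos] using hi'
    · intro i _ j _ h; exact Fin.ext h
    · intro n hn
      rw [Finset.mem_Ico] at hn
      have := h1 t0
      exact ⟨⟨n, by omega⟩, by simpa [Pos] using hn, rfl⟩
  let I := Pos.filter fun i => q.eval (i.val : ℂ) ≠ 0
  have hbad : (Pos.filter fun i => ¬ q.eval (i.val : ℂ) ≠ 0).card ≤ hi - lo := by
    refine le_trans ?_ ((Multiset.toFinset_card_le q.roots).trans ((Polynomial.card_roots' q).trans hqd))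
    apply Finset.card_le_card_of_injOn (fun i => (i.val : ℂ))
    · intro i hi'
      simp only [Finset.coe_filter, Set.mem_ofPred_eq, not_not] at hi'
      simp [hq0, hi'.2]
    · intro i _ j _ h
      exact Fin.ext (Nat.cast_injective (R := ℂ) h)
  have hI : ρ ≤ I.card := by
    have := Finset.card_filter_add_card_filter_not (s := Pos) (fun i => q.eval (i.val : ℂ) ≠ 0)
    have h6 : I.card = (Pos.filter fun i => q.eval (i.val : ℂ) ≠ 0).card := rfl
    omega
  refine le_trans (Nat.mul_le_mul_right _ hI) (block_rank _ (d + ρ - 1) ρ' ?_ I ?_)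
  · intro i j x y hij
    rw [Matrix.sum_apply]
    apply Finset.sum_eq_zero
    intro t _
    by_cases ht : c t = 0
    · simp [ht]
    · have := hmax t ht
      simp only [kroneckerMap_apply, E]
      rw [if_neg (by omega), zero_mul]
  · intro i hi'
    simp only [I, Pos, Finset.mem_filter, Finset.mem_univ, true_and] at hi'
    have := h2 t0
    refine ⟨⟨d + ρ - 1 - i.val, by omega⟩, by simp only []; omega, ?_⟩
    have hblock : (Matrix.of fun x y => (∑ t, kroneckerMap (fun u v : ℂ => u * v)
        (E a b ρ (e t)) (c t)) (i, x) ((⟨d + ρ - 1 - i.val, by omega⟩ : Fin b), y)) =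
        ∑ t ∈ T, ((i.val : ℂ) ^ ((e t).1 - lo)) • c t := by
      ext x y
      simp only [of_apply, Matrix.sum_apply, kroneckerMap_apply, E, Matrix.smul_apply,
        smul_eq_mul, T, Finset.sum_filter]
      apply Finset.sum_congr rfl
      intro t _
      by_cases ht : (e t).1 + (e t).2 = d
      · rw [if_pos (by omega), if_pos ht, ht]
      · rw [if_neg (by omega), if_neg ht, zero_mul]
    rw [hblock]
    apply hS
    · exact S.sum_mem fun t _ => S.smul_mem _ (hc t)
    · intro h0
      apply hi'.2
      have := congrFun (congrFun h0 x0) y0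
      simp only [Matrix.sum_apply, Matrix.smul_apply, smul_eq_mul, Matrix.zero_apply] at this
      simp only [q, Polynomial.eval_finsetSum, Polynomial.eval_monomial]
      rw [← this]
      exact Finset.sum_congr rfl fun t _ => mul_comm _ _

end Pool.Agent.H.MP_066b7c_al
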