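import Pool.Agent.H.MP_066b7c_al.Rank

set_option autoImplicit false

namespace Pool.Agent.H.MP_066b7c_al

open Matrix Module MvPolynomial

theorem aeval_mem {L σ : Type*} [Field L] [Algebra ℂ L] (V : ValuationSubring L)
    (hC : ∀ c : ℂ, algebraMap ℂ L c ∈ V) (z : σ → L) (hz : ∀ s, z s ∈ V)
    (F : MvPolynomial σ ℂ) : aeval z F ∈ V := by
  induction F using MvPolynomial.induction_on with
  | C c => simpa using hC c
  | add p q hp hq => rw [map_add]; exact V.add_mem _ _ hp hq
  | mul_X p s hp => rw [map_mul, aeval_X]; exact V.mul_mem _ _ hp (hz s)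

theorem lemmaS {L σ : Type*} [Field L] [Algebra ℂ L] [Finite σ] (V : ValuationSubring L)
    (hC : ∀ c : ℂ, algebraMap ℂ L c ∈ V) (z : σ → L) (hz : ∀ s, z s ∈ V) :
    ∃ x0 : σ → ℂ, ∀ F : MvPolynomial σ ℂ, V.valuation (aeval z F) < 1 → eval x0 F = 0 := by
  let I : Ideal (MvPolynomial σ ℂ) :=
    { carrier := {F | V.valuation (aeval z F) < 1}
      add_mem' := fun {p q} hp hq => by
        simp only [Set.mem_ofPred_eq, map_add] at hp hq ⊢
        exact Valuation.map_add_lt _ hp hq
      zero_mem' := by simp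
      smul_mem' := fun c p hp => by
        simp only [Set.mem_ofPred_eq, smul_eq_mul, map_mul] at hp ⊢
        have h1 := (V.valuation_le_one_iff _).mpr (aeval_mem V hC z hz c)
        exact lt_of_le_of_lt (mul_le_of_le_one_left' h1) hp }
  have hI : I ≠ ⊤ := by
    rw [Ideal.ne_top_iff_one]
    intro h
    have : V.valuation (aeval z (1 : MvPolynomial σ ℂ)) < 1 := h
    simp at this
  obtain ⟨M, hM, hIM⟩ := I.exists_le_maximal hI
  obtain ⟨x0, rfl⟩ := isMaximal_iff_eq_vanishingIdeal_singleton.mp hM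
  refine ⟨x0, fun F hF => ?_⟩
  have := hIM (show F ∈ I from hF)
  rw [mem_vanishingIdeal_iff] at this
  have := this x0 rfl
  simpa [aeval_eq_eval] using this

theorem lemmaE {L ι : Type*} [Field L] [Fintype ι] (V : ValuationSubring L) (c : ι → L)
    (hc : ∃ i, c i ≠ 0) : ∃ i0, c i0 ≠ 0 ∧ ∀ i, V.valuation (c i) ≤ V.valuation (c i0) := by
  obtain ⟨i1, hi1⟩ := hc
  obtain ⟨i0, -, h⟩ := Finset.exists_max_image Finset.univ (fun i => V.valuation (c i))
    ⟨i1, Finset.mem_univ _⟩
  refine ⟨i0, fun h0 => hi1 ?_, fun i => h i (Finset.mem_univ _)⟩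
  have := h i1 (Finset.mem_univ _)
  rw [h0, map_zero, le_zero_iff] at this
  exact (Valuation.zero_iff _).mp this

theorem scaled_mem {L : Type*} [Field L] (V : ValuationSubring L) {x y : L} (hy : y ≠ 0)
    (h : V.valuation x ≤ V.valuation y) : y⁻¹ * x ∈ V := by
  obtain ⟨a, ha⟩ := (V.valuation_le_iff x y).mp h
  have : y⁻¹ * x = a := by rw [← ha]; field_simp
  rw [this]; exact a.2

/-- the matrix pencil -/
noncomputable def pen {π ι α β L : Type*} [Fintype ι] [CommRing L] [Algebra ℂ L]
    (T : ι → Matrix α β (MvPolynomial π ℂ)) (p : π → L) (c : ι → L) : Matrix α β L :=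
  fun x y => ∑ i, c i * aeval p (T i x y)

theorem pen_map {π ι α β L L' : Type*} [Fintype ι] [CommRing L] [Algebra ℂ L] [CommRing L']
    [Algebra ℂ L'] (φ : L →ₐ[ℂ] L')
    (T : ι → Matrix α β (MvPolynomial π ℂ)) (p : π → L) (c : ι → L) {n : ℕ} (f : Fin n → α)
    (g : Fin n → β) :
    φ ((pen T p c).submatrix f g).det =
      ((pen T (fun s => φ (p s)) (fun i => φ (c i))).submatrix f g).det := by
  rw [AlgHom.map_det]
  congr 1
  ext x y
  simp only [AlgHom.mapMatrix_apply, Matrix.map_apply, submatrix_apply, pen, map_sum, map_mul]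
  apply Finset.sum_congr rfl
  intro i _
  rw [← comp_aeval_apply]

theorem pen_smul {π ι α β L : Type*} [Fintype ι] [CommRing L] [Algebra ℂ L]
    (T : ι → Matrix α β (MvPolynomial π ℂ)) (p : π → L) (c : ι → L) (t : L) {n : ℕ}
    (f : Fin n → α) (g : Fin n → β) :
    ((pen T p (fun i => t * c i)).submatrix f g).det =
      t ^ n * ((pen T p c).submatrix f g).det := by
  have : (pen T p (fun i => t * c i)).submatrix f g = t • (pen T p c).submatrix f g := by
    ext x y
    simp [pen, Finset.mul_sum, mul_assoc]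
  rw [this, det_smul, Fintype.card_fin]

theorem lemmaO {π ι α β : Type} [Finite π] [Fintype ι] [Fintype α] [Fintype β]
    (T : ι → Matrix α β (MvPolynomial π ℂ)) (n : ℕ) (p0 : π → ℂ)
    (h0 : ∀ c : ι → ℂ, c ≠ 0 → n ≤ (pen T p0 c).rank) :
    ∃ P : MvPolynomial π ℂ, P ≠ 0 ∧ ∀ p : π → ℂ, eval p P ≠ 0 →
      ∀ c : ι → ℂ, c ≠ 0 → n ≤ (pen T p c).rank := by
  classical
  let R := MvPolynomial (π ⊕ ι) ℂ
  let F : (Fin n → α) × (Fin n → β) → R := fun fg =>
    ((pen T (fun s => (X (Sum.inl s) : R)) (fun i => X (Sum.inr i))).submatrix fg.1 fg.2).det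
  have hF : ∀ {L : Type} [CommRing L] [Algebra ℂ L] (p : π → L) (c : ι → L) fg,
      aeval (Sum.elim p c) (F fg) = ((pen T p c).submatrix fg.1 fg.2).det := by
    intro L _ _ p c fg
    simp only [F]
    rw [pen_map]
    simp
  let J : ι → Ideal R := fun i => Ideal.span (insert (X (Sum.inr i) - 1) (Set.range F))
  have key : ∀ i, ∃ P : MvPolynomial π ℂ, P ≠ 0 ∧ rename Sum.inl P ∈ J i := by
    intro i
    by_contra hcon
    push Not at hcon
    let S : Submonoid R := (nonZeroDivisors (MvPolynomial π ℂ)).map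
      (rename Sum.inl : MvPolynomial π ℂ →ₐ[ℂ] R)
    have hdis : Disjoint (J i : Set R) S := by
      rw [Set.disjoint_left]
      rintro _ hx ⟨P, hP, rfl⟩
      exact hcon P (nonZeroDivisors.ne_zero hP) hx
    obtain ⟨Q, hQ, hJQ, hQS⟩ := Ideal.exists_le_prime_disjoint (J i) S hdis
    let L := FractionRing (R ⧸ Q)
    let φ : R →ₐ[ℂ] L := (IsScalarTower.toAlgHom ℂ (R ⧸ Q) L).comp (Ideal.Quotient.mkₐ ℂ Q)
    have hφ : ∀ x, φ x = 0 ↔ x ∈ Q := by
      intro x
      simp only [φ, AlgHom.comp_apply, IsScalarTower.toAlgHom_apply, Ideal.Quotient.mkₐ_eq_mk]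
      rw [map_eq_zero_iff _ (IsFractionRing.injective (R ⧸ Q) L), Ideal.Quotient.eq_zero_iff_mem]
    let pb : π → L := fun s => φ (X (Sum.inl s))
    let cb : ι → L := fun i => φ (X (Sum.inr i))
    have hφ' : ∀ x, φ x = aeval (Sum.elim pb cb) x := by
      intro x
      have : φ = aeval (Sum.elim pb cb) := by
        apply MvPolynomial.algHom_ext
        rintro (s | j) <;> simp [pb, cb]
      rw [← this]
    let ψ : MvPolynomial π ℂ →ₐ[ℂ] L := aeval pb
    have hψ : ∀ P, ψ P = φ (rename Sum.inl P) := by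
      intro P
      rw [hφ', aeval_rename]
      rfl
    have hψinj : Function.Injective ψ := by
      rw [injective_iff_map_eq_zero]
      intro P hP
      by_contra hne
      rw [hψ, hφ] at hP
      exact Set.disjoint_left.mp hQS hP ⟨P, mem_nonZeroDivisors_of_ne_zero hne, rfl⟩
    let A : Subring L := (ψ : MvPolynomial π ℂ →+* L).range
    let ε : MvPolynomial π ℂ ≃+* A := RingEquiv.ofBijective
      (ψ : MvPolynomial π ℂ →+* L).rangeRestrict
      ⟨fun x y h => hψinj (congrArg Subtype.val h),
        (ψ : MvPolynomial π ℂ →+* L).rangeRestrict_surjective⟩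
    let m : Ideal A := RingHom.ker ((eval p0).comp (ε.symm : A →+* MvPolynomial π ℂ))
    obtain ⟨V, hAV, hm⟩ := Ideal.image_subset_nonunits_valuationSubring m (RingHom.ker_ne_top _)
    have hC : ∀ c : ℂ, algebraMap ℂ L c ∈ V := fun c => hAV ⟨C c, by simp [ψ]⟩
    have hci : cb i = 1 := by
      have : φ (X (Sum.inr i) - 1) = 0 :=
        (hφ _).mpr (hJQ (Ideal.subset_span (Set.mem_insert _ _)))
      simpa [cb, sub_eq_zero] using this
    obtain ⟨i0, hi0, hmax⟩ := lemmaE V cb ⟨i, by simp [hci]⟩
    obtain ⟨x0, hx0⟩ := lemmaS V hC (Sum.elim pb (fun j => (cb i0)⁻¹ * cb j)) (by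
      rintro (s | j)
      · exact hAV ⟨X s, by simp [ψ]⟩
      · exact scaled_mem V hi0 (hmax j))
    have hp : ∀ s, x0 (Sum.inl s) = p0 s := by
      intro s
      have h1 : ε (X s - C (p0 s)) ∈ m := by simp [m, RingHom.mem_ker]
      have h2 := hm ⟨_, h1, rfl⟩
      rw [SetLike.mem_coe, V.mem_nonunits_iff] at h2
      have h3 := hx0 (X (Sum.inl s) - C (p0 s)) (by
        convert h2 using 2
        simp [ε, ψ])
      simpa [sub_eq_zero] using h3
    have hc1 : x0 (Sum.inr i0) = 1 := by
      have h3 := hx0 (X (Sum.inr i0) - 1) (by simp [inv_mul_cancel₀ hi0])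
      simpa [sub_eq_zero] using h3
    have hne : (fun j => x0 (Sum.inr j)) ≠ 0 := by
      intro h
      have := congrFun h i0
      simp [hc1] at this
    obtain ⟨f, g, hfg⟩ := exists_det_of_le_rank _ n (h0 _ hne)
    apply hfg
    have h4 := hx0 (F (f, g)) (by
      rw [hF, pen_smul, ← hF pb cb (f, g), ← hφ',
        (hφ _).mpr (hJQ (Ideal.subset_span (Set.mem_insert_of_mem _ ⟨(f, g), rfl⟩)))]
      simp)
    have h5 : x0 = Sum.elim p0 (fun j => x0 (Sum.inr j)) := by
      ext (s | j)
      · simp [hp]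
      · simp
    rw [← hF p0 _ (f, g), ← h5]
    simpa [aeval_eq_eval] using h4
  choose P hP hPJ using key
  refine ⟨∏ i, P i, Finset.prod_ne_zero_iff.mpr fun i _ => hP i, ?_⟩
  intro p hp c hc
  by_contra hlt
  obtain ⟨i, hi⟩ : ∃ i, c i ≠ 0 := Function.ne_iff.mp hc
  apply hp
  rw [map_prod]
  apply Finset.prod_eq_zero (Finset.mem_univ i)
  have hker : J i ≤ RingHom.ker (aeval (Sum.elim p (fun j => (c i)⁻¹ * c j)) : R →ₐ[ℂ] ℂ) := by
    rw [Ideal.span_le]
    rintro x (rfl | ⟨fg, rfl⟩)
    · rw [SetLike.mem_coe, RingHom.mem_ker, map_sub, map_one, sub_eq_zero]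
      exact (aeval_X _ _).trans (inv_mul_cancel₀ hi)
    · rw [SetLike.mem_coe, RingHom.mem_ker, hF, pen_smul]
      have : ((pen T p c).submatrix fg.1 fg.2).det = 0 := by
        by_contra h
        exact hlt (le_rank_of_det _ _ _ _ h)
      rw [this, mul_zero]
  have := hker (hPJ i)
  rw [RingHom.mem_ker, aeval_rename] at this
  simpa [aeval_eq_eval] using this

theorem count_le {K : Type*} [Field K] [Algebra ℂ K] {σ τ : Type*} [Fintype σ] [Fintype τ]
    (x : σ → K) (hx : AlgebraicIndependent ℂ x) (l : τ → K)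
    (h : ∀ s, IsAlgebraic (Algebra.adjoin ℂ (Set.range l)) (x s)) :
    Fintype.card σ ≤ Fintype.card τ := by
  have h1 : (AlgebraicIndependent.matroid ℂ K).Indep (Set.range x) := by
    rw [AlgebraicIndependent.matroid_indep_iff]
    exact hx.to_subtype_range
  have h2 : Set.range x ⊆ (AlgebraicIndependent.matroid ℂ K).closure (Set.range l) := by
    rw [AlgebraicIndependent.matroid_closure_eq]
    rintro _ ⟨s, rfl⟩
    exact h s
  have h3 := h1.encard_le_eRk_of_subset h2
  rw [Matroid.eRk_closure_eq] at h3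
  have h4 := h3.trans (Matroid.eRk_le_encard _ _)
  have h5 : (Set.range x).encard = Fintype.card σ := by
    rw [← Set.image_univ, hx.injective.injOn.encard_image]
    simp
  have h6 : (Set.range l).encard ≤ Fintype.card τ := by
    rw [← Set.image_univ]
    refine (Set.encard_image_le _ _).trans ?_
    simp
  rw [h5] at h4
  exact_mod_cast h4.trans h6

theorem partA {a b r : ℕ} (ha : r ≤ a) (hb : r ≤ b) (S : Submodule ℂ (Matrix (Fin a) (Fin b) ℂ))
    (hS : (a - r) * (b - r) < finrank ℂ S) : ∃ x ∈ S, x ≠ 0 ∧ x.rank ≤ r := by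
  classical
  let R := MvPolynomial (Fin a × Fin b) ℂ
  let K := FractionRing R
  let G : Matrix (Fin a) (Fin b) K := fun i j => algebraMap R K (X (i, j))
  let f : Fin r → Fin a := Fin.castLE ha
  let g : Fin r → Fin b := Fin.castLE hb
  have hP : IsUnit (G.submatrix f g).det := by
    rw [isUnit_iff_ne_zero]
    let G0 : Matrix (Fin r) (Fin r) R := fun i j => X (f i, g j)
    have h1 : (G.submatrix f g).det = algebraMap R K G0.det := by
      rw [RingHom.map_det]; rfl
    rw [h1, map_ne_zero_iff _ (IsFractionRing.injective R K)]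
    intro h
    have h2 := congrArg (eval (fun p : Fin a × Fin b => if p.1.val = p.2.val then (1 : ℂ) else 0)) h
    rw [RingHom.map_det, map_zero] at h2
    have h3 : (eval (fun p : Fin a × Fin b => if p.1.val = p.2.val then (1 : ℂ) else 0)).mapMatrix
        G0 = 1 := by
      ext i j
      simp only [RingHom.mapMatrix_apply, Matrix.map_apply, G0, Matrix.one_apply]
      refine (eval_X _).trans ?_
      simp [f, g, Fin.ext_iff]
    rw [h3, det_one] at h2
    exact one_ne_zero h2
  let y : Matrix (Fin a) (Fin b) K :=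
    G.submatrix id g * ((G.submatrix f g)⁻¹ * G.submatrix f id)
  have hy1 : ∀ i j, y (f i) j = G (f i) j := by
    intro i j
    have : y.submatrix f id = G.submatrix f id := by
      have h1 : y.submatrix f id =
          G.submatrix f g * ((G.submatrix f g)⁻¹ * G.submatrix f id) := by
        ext i j; simp [y, Matrix.mul_apply]
      rw [h1, Matrix.mul_nonsing_inv_cancel_left _ _ hP]
    exact congrFun (congrFun this i) j
  have hy2 : ∀ i j, y i (g j) = G i (g j) := by
    intro i j
    have : y.submatrix id g = G.submatrix id g := by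
      have h1 : y.submatrix id g =
          G.submatrix id g * ((G.submatrix f g)⁻¹ * G.submatrix f g) := by
        ext i j; simp [y, Matrix.mul_apply]
      rw [h1, Matrix.nonsing_inv_mul _ hP, Matrix.mul_one]
    exact congrFun (congrFun this i) j
  have hyr : y.rank ≤ r :=
    (rank_mul_le_left _ _).trans ((rank_le_card_width _).trans (by simp))
  -- linear forms
  let m := finrank ℂ (Matrix (Fin a) (Fin b) ℂ ⧸ S)
  have hm : m + finrank ℂ S = a * b := by
    rw [Submodule.finrank_quotient_add_finrank]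
    simp [Module.finrank_matrix]
  let bq : Basis (Fin m) ℂ (Matrix (Fin a) (Fin b) ℂ ⧸ S) := Module.finBasis ℂ _
  let Lf : Fin m → R := fun k => ∑ p : Fin a × Fin b,
    C (bq.repr (S.mkQ (Matrix.single p.1 p.2 1)) k) * X p
  have hLf : ∀ x0 : Fin a × Fin b → ℂ, (∀ k, eval x0 (Lf k) = 0) →
      (Matrix.of fun i j => x0 (i, j)) ∈ S := by
    intro x0 h
    rw [← Submodule.Quotient.mk_eq_zero, ← Submodule.mkQ_apply, ← bq.repr.map_eq_zero_iff]
    ext k
    have h1 := h k
    have h2 : (Matrix.of fun i j => x0 (i, j)) =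
        ∑ p : Fin a × Fin b, x0 p • Matrix.single p.1 p.2 (1 : ℂ) := by
      rw [Matrix.matrix_eq_sum_single (Matrix.of fun i j => x0 (i, j)), Fintype.sum_prod_type]
      simp
    rw [h2]
    simp only [map_sum, map_smul, Finsupp.coe_finsetSum, Finsupp.coe_smul, Finset.sum_apply,
      Pi.smul_apply, smul_eq_mul, Finsupp.coe_zero, Pi.zero_apply]
    rw [← h1]
    simp only [Lf, R, map_sum, map_mul, eval_C, eval_X]
    exact Finset.sum_congr rfl fun _ _ => mul_comm _ _
  let yv : Fin a × Fin b → K := fun p => y p.1 p.2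
  let l : Fin m → K := fun k => aeval yv (Lf k)
  let A := Algebra.adjoin ℂ (Set.range l)
  by_cases hint : ∀ p, IsIntegral A (yv p)
  · exfalso
    let σ := {p : Fin a × Fin b // p.1.val < r ∨ p.2.val < r}
    have hind : AlgebraicIndependent ℂ (fun p : σ => yv p.1) := by
      have h1 : (fun p : σ => yv p.1) =
          (IsScalarTower.toAlgHom ℂ R K) ∘ ((fun p => X p) ∘ (Subtype.val : σ → Fin a × Fin b)) := by
        ext ⟨⟨i, j⟩, h | h⟩
        · exact hy1 ⟨i.val, h⟩ j
        · exact hy2 i ⟨j.val, h⟩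
      rw [h1]
      refine AlgebraicIndependent.map' ?_ (IsFractionRing.injective R K)
      exact (MvPolynomial.algebraicIndependent_X _ ℂ).comp _ Subtype.val_injective
    have h1 := count_le _ hind l (fun s => (hint s.1).isAlgebraic)
    have h2 : Fintype.card σ + (a - r) * (b - r) = a * b := by
      have h3 := Fintype.card_subtype_compl (fun p : Fin a × Fin b => p.1.val < r ∨ p.2.val < r)
      have h4 : Fintype.card {p : Fin a × Fin b // ¬ (p.1.val < r ∨ p.2.val < r)} =
          (a - r) * (b - r) := by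
        rw [← Fintype.card_fin (a - r), ← Fintype.card_fin (b - r), ← Fintype.card_prod]
        exact Fintype.card_congr
          { toFun := fun p => (⟨p.1.1.val - r, by have := p.2; omega⟩,
              ⟨p.1.2.val - r, by have := p.2; omega⟩)
            invFun := fun q => ⟨(⟨q.1.val + r, by omega⟩, ⟨q.2.val + r, by omega⟩), by simp⟩
            left_inv := fun p => by
              have := p.2
              apply Subtype.ext
              apply Prod.ext <;> apply Fin.ext <;> simp <;> omega
            right_inv := fun q => by simp }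
      have h5 := Fintype.card_subtype_le (fun p : Fin a × Fin b => p.1.val < r ∨ p.2.val < r)
      simp only [Fintype.card_prod, Fintype.card_fin] at h3 h5
      have h6 : Fintype.card σ =
        Fintype.card {p : Fin a × Fin b // p.1.val < r ∨ p.2.val < r} := rfl
      omega
    simp only [Fintype.card_fin] at h1
    omega
  · push Not at hint
    obtain ⟨p1, hp1⟩ := hint
    obtain ⟨V, hAV, hpV⟩ := Subring.exists_le_valuationSubring_of_isIntegrallyClosedIn
      (R := (integralClosure A K).toSubring) (x := yv p1) hp1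
    have hA : ∀ x ∈ A, x ∈ V := fun x hx =>
      hAV (show x ∈ integralClosure A K from (integralClosure A K).algebraMap_mem ⟨x, hx⟩)
    have hC : ∀ c : ℂ, algebraMap ℂ K c ∈ V := fun c => hA _ (A.algebraMap_mem c)
    obtain ⟨p0, hp0, hmax⟩ := lemmaE V yv ⟨p1, fun h => hpV (h ▸ V.zero_mem)⟩
    have hbig : 1 < V.valuation (yv p0) := by
      refine lt_of_lt_of_le ?_ (hmax p1)
      rw [← not_le, V.valuation_le_one_iff]
      exact hpV
    obtain ⟨x0, hx0⟩ := lemmaS V hC (fun p => (yv p0)⁻¹ * yv p)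
      (fun p => scaled_mem V hp0 (hmax p))
    refine ⟨Matrix.of fun i j => x0 (i, j), hLf x0 fun k => hx0 _ ?_, ?_, ?_⟩
    · have h1 : aeval (fun p => (yv p0)⁻¹ * yv p) (Lf k) = (yv p0)⁻¹ * l k := by
        simp only [l, Lf, R, map_sum, map_mul, aeval_C, aeval_X]
        rw [Finset.mul_sum]
        exact Finset.sum_congr rfl fun _ _ => by ring
      rw [h1, map_mul, map_inv₀]
      have h2 := (V.valuation_le_one_iff _).mpr (hA (l k) (Algebra.subset_adjoin ⟨k, rfl⟩))
      exact lt_of_le_of_lt (mul_le_of_le_one_right' h2) (inv_lt_one_of_one_lt₀ hbig)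
    · intro h
      have h3 := hx0 (X p0 - 1) (by simp [inv_mul_cancel₀ hp0])
      have h4 : x0 p0 = 0 := congrFun (congrFun h p0.1) p0.2
      simp [h4] at h3
    · by_contra hlt
      obtain ⟨f', g', hfg⟩ := exists_det_of_le_rank _ (r + 1) (Nat.succ_le_of_lt (not_le.mp hlt))
      apply hfg
      let G1 : Matrix (Fin (r + 1)) (Fin (r + 1)) R := fun i j => X (f' i, g' j)
      have h3 := hx0 G1.det (by
        rw [AlgHom.map_det]
        have h5 : (aeval (fun p => (yv p0)⁻¹ * yv p) : R →ₐ[ℂ] K).mapMatrix G1 =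
            (yv p0)⁻¹ • y.submatrix f' g' := by
          ext i j
          exact aeval_X _ _
        have h6 : (y.submatrix f' g').det = 0 := by
          by_contra h
          have := le_rank_of_det _ _ _ _ h
          omega
        rw [h5, det_smul, h6]
        simp)
      rw [RingHom.map_det] at h3
      rw [← h3]
      congr 1
      ext i j
      exact (eval_X (f := x0) (f' i, g' j)).symm

end Pool.Agent.H.MP_066b7c_al
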